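import Pool.Agent.Lib.MP_c9a594_an.FS.Basic

/-! Bernoulli measures on the digits zero and one. -/

namespace Pool.Agent.Lib.MP_c9a594_an.FS

open MeasureTheory ProbabilityTheory Filter Topology

/-- The one-sided Bernoulli shift is ergodic. -/
theorem bern_ergodic (m : Measure Bool) [IsProbabilityMeasure m] :
    Ergodic (fun (ω : ℕ → Bool) (j : ℕ) => ω (j + 1)) (Measure.infinitePi fun _ : ℕ => m) := by
  refine ⟨⟨by fun_prop, Measure.map_infinitePi_infinitePi_of_inj (P := fun _ : ℕ => m)
    (f := fun j => j + 1) (add_left_injective 1)⟩, ⟨fun s hs hfs => ?_⟩⟩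
  have hind := (iIndepFun_infinitePi (P := fun _ : ℕ => m) (X := fun _ x => x)
    (fun _ => measurable_id)).iIndep
  have hit : ∀ n : ℕ, (fun (ω : ℕ → Bool) (j : ℕ) => ω (j + n)) ⁻¹' s = s := fun n => by
    induction n with
    | zero => rfl
    | succ n ih =>
      have e : (fun (ω : ℕ → Bool) (j : ℕ) => ω (j + (n + 1))) =
          (fun (ω : ℕ → Bool) (j : ℕ) => ω (j + n)) ∘ fun ω j => ω (j + 1) := rfl
      rw [e, Set.preimage_comp, ih, hfs]
  have h01 := measure_zero_or_one_of_measurableSet_limsup_atTop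
    (fun n => (measurable_pi_apply n).comap_le) hind (t := s) (by
      rw [limsup_eq_iInf_iSup_of_nat, MeasurableSpace.measurableSet_iInf]
      intro n
      rw [← hit n]
      have hm : @Measurable _ _ (⨆ i ≥ n, MeasurableSpace.comap (fun ω : ℕ → Bool => ω i)
          inferInstance) _ fun (ω : ℕ → Bool) (j : ℕ) => ω (j + n) := by
        refine @measurable_pi_lambda _ _ _ (_) _ _ fun j => ?_
        rw [measurable_iff_comap_le]
        exact le_iSup₂_of_le (f := fun i (_ : i ≥ n) =>
          MeasurableSpace.comap (fun ω : ℕ → Bool => ω i) inferInstance) (j + n) (by omega) le_rfl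
      exact hm hs)
  rw [eventuallyConst_set']
  rcases h01 with h | h
  · exact Or.inl (ae_eq_empty.2 h)
  · exact Or.inr (ae_eq_univ.2 ((prob_compl_eq_zero_iff hs).2 h))

/-- For a base at least three there are ergodic measures of positive entropy on the unit interval
with arbitrarily small mean. -/
theorem exists_bern {A : ℕ} (hA : 3 ≤ A) {ε : ℝ} (hε : 0 < ε) (hε2 : ε ≤ 1 / 2) :
    ∃ μ : Measure ℝ, IsProbabilityMeasure μ ∧
      Ergodic (fun x : ℝ => Int.fract ((A : ℝ) * x)) μ ∧
      (∃ c : ℝ, 0 < c ∧ ∀ n : ℕ, c * n ≤ ∑ k ∈ Finset.range (A ^ n),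
        Real.negMulLog (μ.real (Set.Ico ((k : ℝ) / (A : ℝ) ^ n) ((k + 1 : ℝ) / (A : ℝ) ^ n)))) ∧
      Integrable (fun x => |x|) μ ∧ ∫ x, |x| ∂μ ≤ ε := by
  classical
  have hA2 : 2 ≤ A := by omega
  have hAr : (3 : ℝ) ≤ A := by exact_mod_cast hA
  let m : Measure Bool :=
    ENNReal.ofReal (1 - ε) • Measure.dirac false + ENNReal.ofReal ε • Measure.dirac true
  have hm : IsProbabilityMeasure m := ⟨by
    simp only [m, Measure.add_apply, Measure.smul_apply, measure_univ, smul_eq_mul, mul_one]
    rw [← ENNReal.ofReal_add (by linarith) hε.le]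
    simp⟩
  have hmt : m {true} = ENNReal.ofReal ε := by simp [m]
  have hm1 : ∀ c, m {c} ≤ ENNReal.ofReal (1 - ε) := by
    rintro (_ | _)
    · simp [m]
    · rw [hmt]
      exact ENNReal.ofReal_le_ofReal (by linarith)
  let P : Measure (ℕ → Bool) := Measure.infinitePi fun _ : ℕ => m
  have herg := bern_ergodic m
  let d : Bool → Fin A := fun c => if c then ⟨1, by omega⟩ else ⟨0, by omega⟩
  have hd : Function.Injective d := by
    rintro (_ | _) (_ | _) h <;> simp [d] at h ⊢
  have hd1 : ∀ c, ((d c : ℕ) : ℝ) = if c then 1 else 0 := by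
    rintro (_ | _) <;> simp [d]
  let ι : (ℕ → Bool) → Om A := fun ω j => d (ω j.toNat)
  have hι : Measurable ι := measurable_pi_lambda _ fun j =>
    (measurable_of_finite d).comp (measurable_pi_apply _)
  let φ : (ℕ → Bool) → ℝ := fun ω => Yv (ι ω)
  have hφ : Measurable φ := (measurable_Yv hA2).comp hι
  have hpow : ∀ (n : ℕ) (ω : ℕ → Bool),
      (A : ℝ) ^ n * φ ω = Xw n (ι ω) + φ fun j => ω (j + n) := fun n ω => by
    rw [Yv_pow hA2]
    refine congrArg _ (Yv_congr fun j => ?_)
    simp only [sh, ι, Int.toNat_natCast]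
    rw [← Nat.cast_add, Int.toNat_natCast]
  have hone : ∀ ω : ℕ → Bool,
      (A : ℝ) * φ ω = (if ω 0 then 1 else 0) + φ fun j => ω (j + 1) := fun ω => by
    have h1 := hpow 1 ω
    simp only [pow_one, Xw, mul_zero, zero_add, ι, Nat.cast_zero, Int.toNat_zero] at h1
    rw [h1, hd1]
  have h0 : ∀ ω, 0 ≤ φ ω := fun ω => Yv_nonneg _
  have hle : ∀ ω, φ ω ≤ 1 := fun ω => Yv_le_one hA2 _
  have hlt : ∀ ω, φ ω < 1 := fun ω => by
    have h1 := hone ω
    have h2 := hle fun j => ω (j + 1)
    have h3 := h0 ω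
    split_ifs at h1 <;> nlinarith
  have hint : Integrable φ P :=
    (integrable_const (1 : ℝ)).mono' hφ.aestronglyMeasurable
      (Eventually.of_forall fun ω => by rw [Real.norm_of_nonneg (h0 ω)]; exact hle ω)
  refine ⟨P.map φ, Measure.isProbabilityMeasure_map hφ.aemeasurable, ?_, ?_, ?_, ?_⟩
  · refine (MeasurePreserving.mk hφ rfl).ergodic_of_ergodic_semiconj herg (by fun_prop)
      fun ω => ?_
    have h1 := Int.fract_eq_self.2 ⟨h0 fun j => ω (j + 1), hlt fun j => ω (j + 1)⟩
    simp only [hone]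
    split_ifs
    · rw [Int.fract_one_add, h1]
    · rw [zero_add, h1]
  · have hθ : 0 < 1 - ε := by linarith
    refine ⟨-Real.log (1 - ε), neg_pos.2 (Real.log_neg hθ (by linarith)), fun n => ?_⟩
    have hp : (0 : ℝ) < (A : ℝ) ^ n := by positivity
    have hpre : ∀ k : ℕ, φ ⁻¹' Set.Ico ((k : ℝ) / (A : ℝ) ^ n) ((k + 1 : ℝ) / (A : ℝ) ^ n) =
        (fun ω => Xw n (ι ω)) ⁻¹' {k} := fun k => by
      ext ω
      simp only [Set.mem_preimage, Set.mem_Ico, Set.mem_singleton_iff]
      rw [div_le_iff₀ hp, lt_div_iff₀ hp, mul_comm, hpow]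
      have h1 := h0 fun j => ω (j + n)
      have h2 := hlt fun j => ω (j + n)
      constructor
      · rintro ⟨h3, h4⟩
        have h5 : (k : ℝ) < Xw n (ι ω) + 1 := by linarith
        have h6 : (Xw n (ι ω) : ℝ) < k + 1 := by linarith
        have h7 : k < Xw n (ι ω) + 1 := by exact_mod_cast h5
        have h8 : Xw n (ι ω) < k + 1 := by exact_mod_cast h6
        omega
      · rintro rfl
        constructor <;> linarith
    have hms : ∀ k : ℕ, MeasurableSet ((fun ω => Xw n (ι ω)) ⁻¹' {k}) := fun k =>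
      hpre k ▸ hφ measurableSet_Ico
    have hsum : ∑ k ∈ Finset.range (A ^ n), P.real ((fun ω => Xw n (ι ω)) ⁻¹' {k}) = 1 := by
      rw [sum_measureReal_preimage_singleton _ fun k _ => hms k]
      have : (fun ω => Xw n (ι ω)) ⁻¹' (Finset.range (A ^ n) : Set ℕ) = Set.univ :=
        Set.eq_univ_of_forall fun ω => by simpa using Xw_lt n (ι ω)
      rw [this, probReal_univ]
    have hbd : ∀ k : ℕ, P.real ((fun ω => Xw n (ι ω)) ⁻¹' {k}) ≤ (1 - ε) ^ n := fun k => by
      rcases Set.eq_empty_or_nonempty ((fun ω => Xw n (ι ω)) ⁻¹' {k}) with h | ⟨ω0, h⟩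
      · rw [h, measureReal_empty]
        positivity
      · have hsub : (fun ω => Xw n (ι ω)) ⁻¹' {k} ⊆
            Set.pi (Finset.range n : Set ℕ) fun j => {ω0 j} := fun ω hω j hj => by
          have h1 := (Xw_eq_iff n (ι ω) (ι ω0)).1 (hω.trans h.symm) j (by simpa using hj)
          simpa [ι, hd.eq_iff] using h1
        refine ENNReal.toReal_le_of_le_ofReal (by positivity) ((measure_mono hsub).trans ?_)
        rw [Measure.infinitePi_pi _ fun j _ => measurableSet_singleton _,
          ENNReal.ofReal_pow hθ.le]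
        refine (Finset.prod_le_pow_card _ _ _ fun j _ => hm1 _).trans (by simp)
    refine ((mul_one _).symm.trans
      ((congrArg _ hsum.symm).trans (Finset.mul_sum _ _ _))).le.trans ?_
    refine Finset.sum_le_sum fun k _ => ?_
    rw [map_measureReal_apply hφ measurableSet_Ico, hpre, Real.negMulLog]
    rcases (measureReal_nonneg (μ := P) (s := (fun ω => Xw n (ι ω)) ⁻¹' {k})).eq_or_lt with h | h
    · rw [← h]
      simp
    · have h1 := Real.log_le_log h (hbd k)
      rw [Real.log_pow] at h1
      nlinarith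
  · rw [integrable_map_measure continuous_abs.aestronglyMeasurable hφ.aemeasurable]
    exact hint.abs
  · rw [integral_map hφ.aemeasurable continuous_abs.aestronglyMeasurable]
    simp only [abs_of_nonneg (h0 _)]
    have h1 : ∫ ω, φ (fun j => ω (j + 1)) ∂P = ∫ ω, φ ω ∂P := by
      have h2 := herg.toMeasurePreserving
      rw [← integral_map h2.measurable.aemeasurable hφ.aestronglyMeasurable, h2.map_eq]
    have hE : MeasurableSet {ω : ℕ → Bool | ω 0 = true} :=
      (measurable_pi_apply (X := fun _ : ℕ => Bool) 0) (measurableSet_singleton true)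
    have h2 : (fun ω : ℕ → Bool => if ω 0 then (1 : ℝ) else 0) =
        Set.indicator {ω | ω 0 = true} 1 := by
      funext ω
      simp [Set.indicator_apply]
    have h3 : ∫ ω, (if ω 0 then (1 : ℝ) else 0) ∂P = ε := by
      rw [h2, integral_indicator_one hE]
      have h4 := (measurePreserving_eval_infinitePi (fun _ : ℕ => m) 0).measure_preimage
        (measurableSet_singleton true).nullMeasurableSet
      rw [hmt] at h4
      exact (congrArg ENNReal.toReal h4).trans (ENNReal.toReal_ofReal hε.le)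
    have h4 : (A : ℝ) * ∫ ω, φ ω ∂P = ε + ∫ ω, φ ω ∂P := by
      rw [← integral_const_mul]
      simp only [hone]
      have h6 : Integrable (fun ω : ℕ → Bool => φ fun j => ω (j + 1)) P :=
        herg.toMeasurePreserving.integrable_comp_of_integrable hint
      have h7 : Integrable (fun ω : ℕ → Bool => if ω 0 then (1 : ℝ) else 0) P := by
        rw [h2]
        exact (integrable_const (1 : ℝ)).indicator hE
      rw [integral_add h7 h6, h1, h3]
    have h5 : 0 ≤ ∫ ω, φ ω ∂P := integral_nonneg h0
    nlinarith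

end Pool.Agent.Lib.MP_c9a594_an.FS
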