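import Pool.Agent.Lib.MP_c9a594_an.FS.Final

/-! The Fourier transforms of two measures of positive entropy in independent bases are not both
large at high frequencies. -/

namespace Pool.Agent.Lib.MP_c9a594_an.FS

open MeasureTheory Filter Topology

variable {a b : ℕ}

/-- An unbounded sequence has no finite expansions in two independent bases. -/
theorem not_rep_two {U : Ultrafilter ℕ} {γ : ℕ → ℝ} (ha : 2 ≤ a) (hb : 2 ≤ b)
    (hab : ∀ m n : ℕ, a ^ m = b ^ n → m = 0 ∧ n = 0) {p q : ℤ} (hp : p ≠ 0) (hq : q ≠ 0)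
    (hγ : Tendsto (fun n => |γ n|) U atTop) (h1 : Rep U a fun n => p * γ n)
    (h2 : Rep U b fun n => q * γ n) : False := by
  obtain ⟨K, r, L, C, a1, a2, a3, -, a5⟩ := h1
  obtain ⟨K', s, M, C', -, b2, b3, -, b5⟩ := h2
  rcases Nat.eq_zero_or_pos K with rfl | hK
  · obtain ⟨n, h1, h2⟩ := (a5.and (hγ.eventually_gt_atTop |C|)).exists
    simp only [Finset.univ_eq_empty, Finset.sum_empty, sub_zero, abs_mul] at h1
    have h3 : (1 : ℝ) ≤ |(p : ℝ)| := by exact_mod_cast Int.one_le_abs hp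
    nlinarith [le_abs_self C, abs_nonneg (γ n)]
  obtain ⟨c, hc0⟩ := arith_const (U := U) (C := |(q : ℝ)| * C + |(p : ℝ)| * C')
    (fun k : Fin K ⊕ Fin K' => k.elim (fun k => q * r k) fun j => -(p * s j))
    (fun k n => k.elim (fun k => a ^ L k n) fun j => b ^ M j n) (by
      filter_upwards [a5, b5] with n h1 h2
      have e : ((∑ k : Fin K ⊕ Fin K', k.elim (fun k => (q : ℚ) * r k) (fun j => -(p * s j)) *
          ((k.elim (fun k => (a : ℤ) ^ L k n) fun j => (b : ℤ) ^ M j n : ℤ) : ℚ) : ℚ) : ℝ) =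
          p * (q * γ n - ∑ k, (s k : ℝ) * (b : ℝ) ^ M k n) -
            q * (p * γ n - ∑ k, (r k : ℝ) * (a : ℝ) ^ L k n) := by
        simp only [Fintype.sum_sum_type, Sum.elim_inl, Sum.elim_inr]
        push_cast
        simp only [mul_sub, Finset.mul_sum, neg_mul, Finset.sum_neg_distrib, mul_assoc]
        ring
      rw [e]
      refine (abs_sub _ _).trans ?_
      rw [abs_mul, abs_mul, add_comm]
      gcongr)
  have hc : ∀ (f : ℕ → ℕ) (c : ℤ), Tendsto f U atTop → ¬ ∀ᶠ n in U, (f n : ℤ) = c :=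
    fun f c hf h => by
      obtain ⟨n, h1, h2⟩ := (h.and (hf.eventually_gt_atTop c.toNat)).exists
      omega
  have hd : ∀ (d : ℕ) (f g : ℕ → ℕ) (c : ℤ), 2 ≤ d →
      Tendsto (fun n => (d : ℝ) ^ g n / (d : ℝ) ^ f n) U (𝓝 0) →
      ¬ ∀ᶠ n in U, (g n : ℤ) - f n = c := fun d f g c hd ht h => by
    have hb0 : (0 : ℝ) < d := by exact_mod_cast by omega
    obtain ⟨n, h1, h2⟩ := (h.and (ht.eventually_lt_const (zpow_pos hb0 c))).exists
    rw [← h1, zpow_sub₀ hb0.ne', zpow_natCast, zpow_natCast] at h2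
    exact lt_irrefl _ h2
  have hi := gm_independent (U := U) ha hb (fun k m hk _ e => hk.ne' (hab k m e).1)
    (fun (j : Option (Fin K ⊕ Fin K')) n => j.elim ((0, 0) : ℤ × ℤ) fun j =>
      j.elim (fun k => (L k n, 0)) fun k => (0, M k n)) (by
      rintro (_ | i | i) (_ | j | j) ⟨c, h⟩
      · rfl
      · exact (hc _ (-c.1) (a2 j) (h.mono fun n hn => by simp [← hn])).elim
      · exact (hc _ (-c.2) (b2 j) (h.mono fun n hn => by simp [← hn])).elim
      · exact (hc _ c.1 (a2 i) (h.mono fun n hn => by simp [← hn])).elim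
      · rcases lt_trichotomy i j with e | rfl | e
        · exact (hd a _ _ (-c.1) ha (a3 i j e) (h.mono fun n hn => by simp [← hn])).elim
        · rfl
        · exact (hd a _ _ c.1 ha (a3 j i e) (h.mono fun n hn => by simp [← hn])).elim
      · exact (hc _ c.1 (a2 i) (h.mono fun n hn => by simp [← hn])).elim
      · exact (hc _ c.2 (b2 i) (h.mono fun n hn => by simp [← hn])).elim
      · exact (hc _ c.2 (b2 i) (h.mono fun n hn => by simp [← hn])).elim
      · rcases lt_trichotomy i j with e | rfl | e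
        · exact (hd b _ _ (-c.2) hb (b3 i j e) (h.mono fun n hn => by simp [← hn])).elim
        · rfl
        · exact (hd b _ _ c.2 hb (b3 j i e) (h.mono fun n hn => by simp [← hn])).elim)
  have := Fintype.linearIndependent_iff.1 hi
    (fun j => j.elim (-c) fun j => j.elim (fun k => q * r k) fun k => -(p * s k)) (by
      simp only [gm, germ_smul, germ_sum, germ_eq_zero]
      refine hc0.mono fun n hn => ?_
      simp [Fintype.sum_option, Fintype.sum_sum_type, ← hn]) (some (Sum.inl ⟨0, hK⟩))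
  have h4 : (q : ℚ) * r ⟨0, hK⟩ = 0 := by simpa using this
  exact mul_ne_zero (Int.cast_ne_zero.2 hq) (a1 _) h4

/-- A symbolic model in which the future is nowhere determined by the past. -/
theorem exists_model (hb : 2 ≤ b) (μ : Measure UnitAddCircle) [IsProbabilityMeasure μ]
    (hμ : Ergodic (fun x => b • x) μ)
    (hpos : ∃ c : ℝ, 0 < c ∧ ∀ n : ℕ, c * n ≤ ∑ k ∈ Finset.range (b ^ n),
      Real.negMulLog (μ.real (((↑) : ℝ → UnitAddCircle) ''
        Set.Ico ((k : ℝ) / (b : ℝ) ^ n) ((k + 1 : ℝ) / (b : ℝ) ^ n)))) :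
    ∃ Q : Measure (Om b), IsProbabilityMeasure Q ∧ Inv Q ∧ NoPred Q ∧
      (Q.map fun ω => ((Yv ω : ℝ) : UnitAddCircle)) = μ := by
  obtain ⟨P, hP, hinv, hmap, hent⟩ := exists_ext hb μ hμ.toMeasurePreserving
  obtain ⟨c, hc, hcn⟩ := hpos
  obtain ⟨Q, hQ, hQP, hinvQ, hN⟩ := exists_noPred hb hinv ⟨c, hc, fun n => (hcn n).trans (hent n)⟩
  have hm : Measurable fun ω : Om b => ((Yv ω : ℝ) : UnitAddCircle) :=
    ((AddCircle.continuous_mk' 1).comp (continuous_Yv hb)).measurable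
  have hT : Measurable fun x : UnitAddCircle => b • x := (continuous_const_smul _).measurable
  have hprob : IsProbabilityMeasure (Q.map fun ω => ((Yv ω : ℝ) : UnitAddCircle)) :=
    Measure.isProbabilityMeasure_map hm.aemeasurable
  have hcomm : ((fun x : UnitAddCircle => b • x) ∘ fun ω : Om b => ((Yv ω : ℝ) : UnitAddCircle)) =
      (fun ω : Om b => ((Yv ω : ℝ) : UnitAddCircle)) ∘ sh 1 := by
    funext ω
    have h1 := Yv_pow hb 1 ω
    simp only [Function.comp_apply]
    rw [← AddCircle.coe_nsmul, nsmul_eq_mul, ← pow_one (b : ℝ), h1, AddCircle.coe_add]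
    have h2 : (((Xw 1 ω : ℕ) : ℝ) : UnitAddCircle) = 0 :=
      (AddCircle.coe_eq_zero_iff _).2 ⟨(Xw 1 ω : ℕ), by simp⟩
    rw [h2, zero_add]
    rfl
  have hmp : MeasurePreserving (fun x : UnitAddCircle => b • x)
      (Q.map fun ω => ((Yv ω : ℝ) : UnitAddCircle))
      (Q.map fun ω => ((Yv ω : ℝ) : UnitAddCircle)) := by
    refine ⟨hT, ?_⟩
    rw [Measure.map_map hT hm, hcomm, ← Measure.map_map hm (measurable_sh 1), (hinvQ 1).map_eq]
  exact ⟨Q, hQ, hinvQ, hN, hμ.eq_of_absolutelyContinuous hmp (hmap ▸ hQP.map hm)⟩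

/-- Real frequencies with large Fourier transform have a finite expansion. -/
theorem rep_of_large (hb : 2 ≤ b) {Q : Measure (Om b)} [IsProbabilityMeasure Q] (hinv : Inv Q)
    (hN : NoPred Q) (U : Ultrafilter ℕ) (g : ℕ → ℝ) {ε : ℝ} (hε : 0 < ε)
    (h : ∀ n, ε ≤ ‖∫ ω, ee (g n * Yv ω) ∂Q‖) : Rep U b g := by
  refine rep_of_Bf hb hinv hN U (δ := ε / 2 * (ε / 2)) (by positivity)
    (Eventually.of_forall fun n => ?_)
  have h1 := h n
  have h2 := norm_integral_ee_le (P := Q) hb (g n) (half_pos hε)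
  exact (le_div_iff₀ (half_pos hε)).1 (by linarith)

lemma norm_int_ee_le_one {X : Type} [MeasurableSpace X] (ρ : Measure X) [IsProbabilityMeasure ρ]
    (f : X → ℝ) : ‖∫ x, ee (f x) ∂ρ‖ ≤ 1 := by
  refine (norm_integral_le_of_norm_le_const (C := 1) (Eventually.of_forall fun x => ?_)).trans
    (by simp)
  rw [ee, Complex.norm_exp_ofReal_mul_I]

/-- The symbolic form, for real frequencies. -/
theorem om_decay (ha : 2 ≤ a) (hb : 2 ≤ b) (hab : ∀ m n : ℕ, a ^ m = b ^ n → m = 0 ∧ n = 0)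
    {P : Measure (Om a)} {Q : Measure (Om b)} [IsProbabilityMeasure P] [IsProbabilityMeasure Q]
    (hP : Inv P) (hPN : NoPred P) (hQ : Inv Q) (hQN : NoPred Q) {p q : ℤ} (hp : p ≠ 0)
    (hq : q ≠ 0) :
    Tendsto (fun t : ℝ => (∫ ω, ee (p * t * Yv ω) ∂P) * ∫ ω, ee (q * t * Yv ω) ∂Q)
      (cocompact ℝ) (𝓝 0) := by
  by_contra hc
  rw [NormedAddGroup.tendsto_nhds_zero] at hc
  push Not at hc
  obtain ⟨ε, hε, hf⟩ := hc
  have hex : ∀ n : ℕ, ∃ t : ℝ, (n : ℝ) ≤ |t| ∧
      ε ≤ ‖(∫ ω, ee (p * t * Yv ω) ∂P) * ∫ ω, ee (q * t * Yv ω) ∂Q‖ := fun n => by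
    have h1 := (tendsto_norm_cocompact_atTop (E := ℝ)).eventually_ge_atTop (n : ℝ)
    obtain ⟨t, h2, h3⟩ := (hf.and_eventually h1).exists
    exact ⟨t, h3, h2⟩
  choose g hg hlarge using hex
  simp only [norm_mul] at hlarge
  have ht : Tendsto (fun n => |g n|) (hyperfilter ℕ) atTop :=
    (tendsto_atTop_mono hg tendsto_natCast_atTop_atTop).mono_left
      (Nat.cofinite_eq_atTop ▸ hyperfilter_le_cofinite)
  exact not_rep_two (U := hyperfilter ℕ) (γ := g) ha hb hab hp hq ht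
    (rep_of_large ha hP hPN _ _ hε fun n =>
      (hlarge n).trans (mul_le_of_le_one_right (norm_nonneg _) (norm_int_ee_le_one Q _)))
    (rep_of_large hb hQ hQN _ _ hε fun n =>
      (hlarge n).trans (mul_le_of_le_one_left (norm_nonneg _) (norm_int_ee_le_one P _)))

end Pool.Agent.Lib.MP_c9a594_an.FS
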