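import Pool.Agent.Lib.MP_c9a594_an.H59.ConvR
import Pool.Agent.Shared.SubspaceAlg.Units

/-! Algebraic slopes. -/

namespace Pool.Agent.Lib.MP_c9a594_an.FS

open MeasureTheory Filter Topology

variable {a b : ℕ}

/-- A sequence and an algebraic multiple of it have no finite expansions in independent bases. -/
theorem not_rep_alg {U : Ultrafilter ℕ} {γ : ℕ → ℝ} (ha : 2 ≤ a) (hb : 2 ≤ b)
    (hab : ∀ m n : ℕ, a ^ m = b ^ n → m = 0 ∧ n = 0) {l : ℝ} (hl : IsAlgebraic ℚ l) (hl0 : l ≠ 0)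
    (hγ : Tendsto (fun n => |γ n|) U atTop) (h1 : Rep U a γ)
    (h2 : Rep U b fun n => l * γ n) : False := by
  classical
  obtain ⟨K, r, L, C, a1, a2, a3, -, a5⟩ := h1
  obtain ⟨K', s, M, C', -, b2, b3, b4, b5⟩ := h2
  rcases Nat.eq_zero_or_pos K with rfl | hK
  · obtain ⟨n, h1, h2⟩ := (a5.and (hγ.eventually_gt_atTop C)).exists
    simp only [Finset.univ_eq_empty, Finset.sum_empty, sub_zero] at h1
    linarith
  have ha1 : (1 : ℝ) < a := by exact_mod_cast ha
  set k0 : Fin K := ⟨0, hK⟩ with hk0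
  let T : ℕ → ℝ := fun n => (a : ℝ) ^ L k0 n
  have hT : Tendsto T U atTop := (tendsto_pow_atTop_atTop_of_one_lt ha1).comp (a2 k0)
  have hT0 : ∀ n, 0 < T n := fun n => by positivity
  have hLk : ∀ᶠ n in U, ∀ k, (a : ℝ) ^ L k n ≤ T n := eventually_all.2 fun k => by
    rcases eq_or_ne k k0 with rfl | hk
    · exact Eventually.of_forall fun n => le_rfl
    · have hlt : k0 < k := by
        rw [Fin.lt_def]
        exact Nat.pos_of_ne_zero fun h => hk (Fin.ext h)
      filter_upwards [(a3 k0 k hlt).eventually_lt_const one_pos] with n hn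
      exact ((div_lt_one (hT0 n)).1 hn).le
  have hγT : ∀ᶠ n in U, |γ n| ≤ (1 + ∑ k, |(r k : ℝ)|) * T n := by
    filter_upwards [hLk, a5, hT.eventually_ge_atTop C] with n h1 h2 h3
    have h4 : |∑ k, (r k : ℝ) * (a : ℝ) ^ L k n| ≤ (∑ k, |(r k : ℝ)|) * T n := by
      rw [Finset.sum_mul]
      refine (Finset.abs_sum_le_sum_abs _ _).trans (Finset.sum_le_sum fun k _ => ?_)
      rw [abs_mul, abs_of_nonneg (a := (a : ℝ) ^ L k n) (by positivity)]
      exact mul_le_mul_of_nonneg_left (h1 k) (abs_nonneg _)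
    have h5 := abs_sub_abs_le_abs_sub (γ n) (∑ k, (r k : ℝ) * (a : ℝ) ^ L k n)
    linarith
  let m : ℕ → Fin K ⊕ Fin K' → ℕ := fun n i => i.elim (fun k => a ^ L k n) fun j => b ^ M j n
  have hm0 : ∀ n i, 0 < m n i := by
    rintro n (k | j) <;> simp only [m, Sum.elim_inl, Sum.elim_inr] <;> positivity
  have hmT : ∀ᶠ n in U, ∀ i, (m n i : ℝ) ≤ T n ^ 2 := eventually_all.2 fun i => by
    rcases i with k | j
    · filter_upwards [hLk, hT.eventually_ge_atTop 1] with n h1 h2
      have h3 := h1 k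
      simp only [m, Sum.elim_inl, Nat.cast_pow]
      nlinarith
    · obtain ⟨D, hD⟩ := b4 j
      filter_upwards [hD, hγT, hT.eventually_ge_atTop (|D| * (|l| * (1 + ∑ k, |(r k : ℝ)|)))]
        with n h1 h2 h3
      simp only [m, Sum.elim_inr, Nat.cast_pow]
      calc (b : ℝ) ^ M j n ≤ |D| * (|l| * |γ n|) := by
            rw [← abs_mul l]
            exact h1.trans (mul_le_mul_of_nonneg_right (le_abs_self D) (abs_nonneg _))
        _ ≤ |D| * (|l| * ((1 + ∑ k, |(r k : ℝ)|) * T n)) := by gcongr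
        _ = |D| * (|l| * (1 + ∑ k, |(r k : ℝ)|)) * T n := by ring
        _ ≤ T n * T n := mul_le_mul_of_nonneg_right h3 (hT0 n).le
        _ = T n ^ 2 := by ring
  let c : Fin K ⊕ Fin K' → ℝ := fun i => i.elim (fun k => l * r k) fun j => -(s j : ℝ)
  let C1 : ℝ := max 1 (|l| * C + C')
  have hC1 : 1 ≤ C1 := le_max_left _ _
  have hform : ∀ᶠ n in U, |∑ i, c i * (m n i : ℝ)| ≤ C1 := by
    filter_upwards [a5, b5] with n h1 h2
    have e : ∑ i, c i * (m n i : ℝ) = (l * γ n - ∑ k, (s k : ℝ) * (b : ℝ) ^ M k n) -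
        l * (γ n - ∑ k, (r k : ℝ) * (a : ℝ) ^ L k n) := by
      simp only [c, m, Fintype.sum_sum_type, Sum.elim_inl, Sum.elim_inr, Nat.cast_pow, mul_sub,
        Finset.mul_sum, neg_mul, Finset.sum_neg_distrib, mul_assoc]
      ring
    rw [e]
    refine (abs_sub _ _).trans (le_trans ?_ (le_max_right _ _))
    rw [abs_mul, add_comm]
    gcongr
  have hrat : ∀ x : ℚ, IsAlgebraic ℚ (x : ℝ) := fun x => isAlgebraic_algebraMap x
  obtain ⟨ζ, hζ0, hζ⟩ := Pool.Agent.Shared.SubspaceAlg.subspace_units (a * b).primeFactors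
    (Matrix.updateRow 1 (Sum.inl k0) c) (fun i j => by
      rw [Matrix.updateRow_apply]
      split_ifs
      · rcases j with k | j
        · exact hl.mul (hrat _)
        · exact (hrat _).neg
      · rw [Matrix.one_apply]
        split_ifs
        · exact isAlgebraic_one
        · exact isAlgebraic_zero)
    (by
      rw [← Matrix.cramer_transpose_apply, Matrix.transpose_one, Matrix.cramer_one]
      exact mul_ne_zero hl0 (Rat.cast_ne_zero.2 (a1 k0)))
    U (fun n => Real.log (T n)) (Real.tendsto_log_atTop.comp hT) 2 (1 / 2) (by norm_num)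
    (fun n i => m n i) m
    (fun n i => if i = Sum.inl k0 then Real.log C1 - Real.log (T n) else 0) (by
      filter_upwards [hmT, hform, hT.eventually_ge_atTop (C1 ^ 2)] with n h1 h2 h3
      have h4 : 2 * Real.log C1 ≤ Real.log (T n) := by
        have := Real.log_le_log (by positivity) h3
        rwa [Real.log_pow, Nat.cast_ofNat] at this
      have h5 : 0 ≤ Real.log C1 := Real.log_nonneg hC1
      refine ⟨fun i => ⟨?_, dvd_rfl, ?_, ?_, ?_⟩, ?_⟩
      · refine Nat.mem_factoredNumbers'.2 fun p hp hd => ?_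
        refine Nat.mem_primeFactors.2 ⟨hp, ?_, by positivity⟩
        rcases i with k | j
        · exact (hp.dvd_of_dvd_pow hd).mul_right b
        · exact (hp.dvd_of_dvd_pow hd).mul_left a
      · have := Real.log_le_log (by exact_mod_cast hm0 n i) (h1 i)
        rwa [Real.log_pow, Nat.cast_ofNat] at this
      · split_ifs
        · rw [abs_le]
          constructor <;> linarith
        · rw [abs_zero]
          linarith
      · by_cases hi : i = Sum.inl k0
        · subst hi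
          simp only [Matrix.updateRow_self, if_true, Int.cast_natCast]
          refine h2.trans (le_of_eq ?_)
          have h6 : (m n (Sum.inl k0) : ℝ) = T n := by simp [m, T]
          rw [h6, Real.exp_sub, Real.exp_log (by linarith), Real.exp_log (hT0 n)]
          field_simp [(hT0 n).ne']
        · simp [hi, Matrix.one_apply]
      · rw [Finset.sum_ite_eq' Finset.univ]
        simp only [Finset.mem_univ, if_true]
        linarith)
  have hc : ∀ (f : ℕ → ℕ) (c : ℤ), Tendsto f U atTop → ¬ ∀ᶠ n in U, (f n : ℤ) = c :=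
    fun f c hf h => by
      obtain ⟨n, h1, h2⟩ := (h.and (hf.eventually_gt_atTop c.toNat)).exists
      omega
  have hd : ∀ (d : ℕ) (f g : ℕ → ℕ) (c : ℤ), 2 ≤ d →
      Tendsto (fun n => (d : ℝ) ^ g n / (d : ℝ) ^ f n) U (𝓝 0) →
      ¬ ∀ᶠ n in U, (g n : ℤ) - f n = c := fun d f g c hd ht h => by
    have hb0 : (0 : ℝ) < d := by exact_mod_cast by omega
    obtain ⟨n, h1, h2⟩ := (h.and (ht.eventually_lt_const (zpow_pos hb0 c))).exists
    rw [← h1, zpow_sub₀ hb0.ne', zpow_natCast, zpow_natCast] at h2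
    exact lt_irrefl _ h2
  have hi := gm_independent (U := U) ha hb (fun k m hk _ e => hk.ne' (hab k m e).1)
    (fun (j : Fin K ⊕ Fin K') n =>
      j.elim (fun k => (((L k n : ℤ), 0) : ℤ × ℤ)) fun k => (0, M k n)) (by
      rintro (i | i) (j | j) ⟨c, h⟩
      · rcases lt_trichotomy i j with e | rfl | e
        · exact (hd a _ _ (-c.1) ha (a3 i j e) (h.mono fun n hn => by simp [← hn])).elim
        · rfl
        · exact (hd a _ _ c.1 ha (a3 j i e) (h.mono fun n hn => by simp [← hn])).elim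
      · exact (hc _ c.1 (a2 i) (h.mono fun n hn => by simp [← hn])).elim
      · exact (hc _ c.2 (b2 i) (h.mono fun n hn => by simp [← hn])).elim
      · rcases lt_trichotomy i j with e | rfl | e
        · exact (hd b _ _ (-c.2) hb (b3 i j e) (h.mono fun n hn => by simp [← hn])).elim
        · rfl
        · exact (hd b _ _ c.2 hb (b3 j i e) (h.mono fun n hn => by simp [← hn])).elim)
  refine hζ0 (funext fun i => Fintype.linearIndependent_iff.1 hi ζ ?_ i)
  simp only [gm, germ_smul, germ_sum, germ_eq_zero]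
  refine hζ.mono fun n hn => ?_
  simpa [Fintype.sum_sum_type, m] using hn

/-- The symbolic form for an algebraic slope. -/
theorem om_decay_alg (ha : 2 ≤ a) (hb : 2 ≤ b) (hab : ∀ m n : ℕ, a ^ m = b ^ n → m = 0 ∧ n = 0)
    {P : Measure (Om a)} {Q : Measure (Om b)} [IsProbabilityMeasure P] [IsProbabilityMeasure Q]
    (hP : Inv P) (hPN : NoPred P) (hQ : Inv Q) (hQN : NoPred Q) {l : ℝ} (hl : IsAlgebraic ℚ l)
    (hl0 : l ≠ 0) :
    Tendsto (fun t : ℝ => (∫ ω, ee (t * Yv ω) ∂P) * ∫ ω, ee (l * t * Yv ω) ∂Q)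
      (cocompact ℝ) (𝓝 0) := by
  by_contra hc
  rw [NormedAddGroup.tendsto_nhds_zero] at hc
  push Not at hc
  obtain ⟨ε, hε, hf⟩ := hc
  have hex : ∀ n : ℕ, ∃ t : ℝ, (n : ℝ) ≤ |t| ∧
      ε ≤ ‖(∫ ω, ee (t * Yv ω) ∂P) * ∫ ω, ee (l * t * Yv ω) ∂Q‖ := fun n => by
    have h1 := (tendsto_norm_cocompact_atTop (E := ℝ)).eventually_ge_atTop (n : ℝ)
    obtain ⟨t, h2, h3⟩ := (hf.and_eventually h1).exists
    exact ⟨t, h3, h2⟩
  choose g hg hlarge using hex
  simp only [norm_mul] at hlarge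
  have ht : Tendsto (fun n => |g n|) (hyperfilter ℕ) atTop :=
    (tendsto_atTop_mono hg tendsto_natCast_atTop_atTop).mono_left
      (Nat.cofinite_eq_atTop ▸ hyperfilter_le_cofinite)
  exact not_rep_alg (U := hyperfilter ℕ) (γ := g) ha hb hab hl hl0 ht
    (rep_of_large ha hP hPN _ _ hε fun n =>
      (hlarge n).trans (mul_le_of_le_one_right (norm_nonneg _) (norm_int_ee_le_one Q _)))
    (rep_of_large hb hQ hQN _ _ hε fun n =>
      (hlarge n).trans (mul_le_of_le_one_left (norm_nonneg _) (norm_int_ee_le_one P _)))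

theorem conv_decay_alg (ha : 2 ≤ a) (hb : 2 ≤ b) (hab : ∀ m n : ℕ, a ^ m = b ^ n → m = 0 ∧ n = 0)
    (μ ν : Measure ℝ) [IsProbabilityMeasure μ] [IsProbabilityMeasure ν]
    (hμ : Ergodic (fun x : ℝ => Int.fract ((a : ℝ) * x)) μ)
    (hν : Ergodic (fun x : ℝ => Int.fract ((b : ℝ) * x)) ν)
    (hμ0 : ∃ c : ℝ, 0 < c ∧ ∀ n : ℕ, c * n ≤ ∑ k ∈ Finset.range (a ^ n),
      Real.negMulLog (μ.real (Set.Ico ((k : ℝ) / (a : ℝ) ^ n) ((k + 1 : ℝ) / (a : ℝ) ^ n))))
    (hν0 : ∃ c : ℝ, 0 < c ∧ ∀ n : ℕ, c * n ≤ ∑ k ∈ Finset.range (b ^ n),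
      Real.negMulLog (ν.real (Set.Ico ((k : ℝ) / (b : ℝ) ^ n) ((k + 1 : ℝ) / (b : ℝ) ^ n))))
    (l : ℝ) (hl : IsAlgebraic ℚ l) (hl0 : l ≠ 0) :
    Tendsto (fun t : ℝ => ∫ z : ℝ × ℝ,
      Complex.exp (2 * Real.pi * Complex.I * t * (z.1 + l * z.2)) ∂(μ.prod ν))
      (cocompact ℝ) (𝓝 0) := by
  obtain ⟨P, hP, a1, a2, rfl⟩ := exists_model_real ha μ hμ hμ0
  obtain ⟨Q, hQ, b1, b2, rfl⟩ := exists_model_real hb ν hν hν0
  refine (om_decay_alg ha hb hab a1 a2 b1 b2 hl hl0).congr fun t => ?_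
  have hc : ∀ v : ℝ, Continuous fun x : ℝ => ee (v * x) := fun v => by
    unfold ee
    fun_prop
  rw [← integral_map (measurable_Yv ha).aemeasurable (hc _).aestronglyMeasurable,
    ← integral_map (measurable_Yv hb).aemeasurable (hc _).aestronglyMeasurable,
    ← integral_prod_mul]
  refine integral_congr_ae (Eventually.of_forall fun z => ?_)
  simp only [ee]
  rw [← Complex.exp_add]
  congr 1
  push_cast
  ring

end Pool.Agent.Lib.MP_c9a594_an.FS
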