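import Pool.Agent.Lib.MP_c9a594_an.H59.Conv

/-! The statement for measures on the unit interval. -/

namespace Pool.Agent.Lib.MP_c9a594_an.FS

open MeasureTheory Filter Topology

variable {a b : ℕ}

/-- A symbolic model for a measure on the unit interval. -/
theorem exists_model_real (hb : 2 ≤ b) (μ : Measure ℝ) [IsProbabilityMeasure μ]
    (hμ : Ergodic (fun x : ℝ => Int.fract ((b : ℝ) * x)) μ)
    (hpos : ∃ c : ℝ, 0 < c ∧ ∀ n : ℕ, c * n ≤ ∑ k ∈ Finset.range (b ^ n),
      Real.negMulLog (μ.real (Set.Ico ((k : ℝ) / (b : ℝ) ^ n) ((k + 1 : ℝ) / (b : ℝ) ^ n)))) :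
    ∃ Q : Measure (Om b), IsProbabilityMeasure Q ∧ Inv Q ∧ NoPred Q ∧ Q.map Yv = μ := by
  have hb0 : (0 : ℝ) < b := by exact_mod_cast (by omega : 0 < b)
  have hco : Continuous ((↑) : ℝ → UnitAddCircle) := AddCircle.continuous_mk' 1
  have hinj : ∀ x ∈ Set.Ico (0 : ℝ) 1, ∀ y ∈ Set.Ico (0 : ℝ) 1,
      (x : UnitAddCircle) = y → x = y := fun x hx y hy h =>
    (AddCircle.coe_eq_coe_iff_of_mem_Ico (a := 0) (by simpa using hx) (by simpa using hy)).1 h
  have hsupp : ∀ᵐ x ∂μ, x ∈ Set.Ico (0 : ℝ) 1 := by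
    rw [← hμ.toMeasurePreserving.map_eq]
    exact (ae_map_iff hμ.toMeasurePreserving.measurable.aemeasurable measurableSet_Ico).2
      (Eventually.of_forall fun x => ⟨Int.fract_nonneg _, Int.fract_lt_one _⟩)
  have hzero : ∀ᵐ x ∂μ, x ≠ 0 := by
    rcases hμ.ae_empty_or_univ_of_ae_le_preimage (s := {0})
      (measurableSet_singleton _).nullMeasurableSet
      (LE.le.eventuallyLE (by rintro _ rfl; simp)) with h | h
    · filter_upwards [h] with x hx h0
      have h1 : x ∈ ({0} : Set ℝ) := h0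
      exact (eq_iff_iff.1 hx).1 h1
    · exfalso
      obtain ⟨c, hc, hcn⟩ := hpos
      have h0 : ∀ᵐ x ∂μ, x = 0 := by
        filter_upwards [h] with x hx
        exact (eq_iff_iff.1 hx).2 (Set.mem_univ x)
      have h1 : ∀ I : Set ℝ, Real.negMulLog (μ.real I) = 0 := fun I => by
        by_cases hI : (0 : ℝ) ∈ I
        · have : I =ᵐ[μ] (Set.univ : Set ℝ) := by
            filter_upwards [h0] with x hx
            exact eq_iff_iff.2 ⟨fun _ => trivial, fun _ => hx ▸ hI⟩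
          rw [measureReal_congr this]
          simp
        · have : I =ᵐ[μ] (∅ : Set ℝ) := by
            filter_upwards [h0] with x hx
            exact eq_iff_iff.2 ⟨fun h => hI (hx ▸ h), fun h => h.elim⟩
          rw [measureReal_congr this]
          simp
      have h2 := hcn 1
      simp only [h1, Finset.sum_const_zero, Nat.cast_one, mul_one] at h2
      linarith
  have hprob : IsProbabilityMeasure (μ.map ((↑) : ℝ → UnitAddCircle)) :=
    Measure.isProbabilityMeasure_map hco.measurable.aemeasurable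
  have herg : Ergodic (fun x : UnitAddCircle => b • x) (μ.map ((↑) : ℝ → UnitAddCircle)) :=
    (MeasurePreserving.mk hco.measurable rfl).ergodic_of_ergodic_semiconj hμ
      (continuous_const_smul _).measurable fun x => by
        simp only [AddCircle.coe_fract, ← AddCircle.coe_nsmul, nsmul_eq_mul]
  obtain ⟨Q, hQ, hinv, hN, hmap⟩ := exists_model hb _ herg (by
    obtain ⟨c, hc, hcn⟩ := hpos
    refine ⟨c, hc, fun n => (hcn n).trans (Finset.sum_congr rfl fun k hk => ?_).le⟩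
    have hp : (0 : ℝ) < (b : ℝ) ^ n := by positivity
    have hsub : Set.Ico ((k : ℝ) / (b : ℝ) ^ n) ((k + 1 : ℝ) / (b : ℝ) ^ n) ⊆ Set.Ico 0 1 := by
      refine Set.Ico_subset_Ico (by positivity) ?_
      rw [div_le_one hp]
      exact_mod_cast Finset.mem_range.1 hk
    have hms : MeasurableSet (((↑) : ℝ → UnitAddCircle) ''
        Set.Ico ((k : ℝ) / (b : ℝ) ^ n) ((k + 1 : ℝ) / (b : ℝ) ^ n)) :=
      measurableSet_Ico.image_of_continuousOn_injOn hco.continuousOn
        fun x hx y hy h => hinj x (hsub hx) y (hsub hy) h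
    rw [map_measureReal_apply hco.measurable hms]
    congr 1
    refine measureReal_congr ?_
    filter_upwards [hsupp] with x hx
    refine eq_iff_iff.2 ⟨fun h => ⟨x, h, rfl⟩, ?_⟩
    rintro ⟨y, hy, e⟩
    exact hinj y (hsub hy) x hx e ▸ hy)
  refine ⟨Q, hQ, hinv, hN, ?_⟩
  have hm : Measurable fun ω : Om b => ((Yv ω : ℝ) : UnitAddCircle) :=
    (hco.comp (continuous_Yv hb)).measurable
  let ρ : UnitAddCircle → ℝ := fun z => (AddCircle.measurableEquivIco 1 0 z : ℝ)
  have hρ : Measurable ρ :=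
    measurable_subtype_coe.comp (AddCircle.measurableEquivIco 1 0).measurable
  have hρ1 : ∀ x ∈ Set.Ico (0 : ℝ) 1, ρ x = x := fun x hx =>
    hinj _ (by simpa using (AddCircle.measurableEquivIco 1 0 (x : UnitAddCircle)).2) x hx
      ((AddCircle.equivIco 1 0).symm_apply_apply _)
  have hne : ∀ᵐ z ∂(μ.map ((↑) : ℝ → UnitAddCircle)), z ≠ 0 := by
    refine (ae_map_iff hco.measurable.aemeasurable (measurableSet_singleton 0).compl).2 ?_
    filter_upwards [hsupp, hzero] with x hx h0 h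
    exact h0 (hinj x hx 0 ⟨le_rfl, one_pos⟩ (by simpa using h))
  rw [← hmap] at hne
  have h1 : ∀ᵐ ω ∂Q, ρ ((Yv ω : ℝ) : UnitAddCircle) = Yv ω := by
    filter_upwards [ae_of_ae_map hm.aemeasurable hne] with ω h
    refine hρ1 _ ⟨Yv_nonneg ω, lt_of_le_of_ne (Yv_le_one hb ω) fun e => h ?_⟩
    rw [e]
    exact AddCircle.coe_period 1
  have h2 := congrArg (fun m : Measure UnitAddCircle => m.map ρ) hmap
  simp only [Measure.map_map hρ hm, Measure.map_map hρ hco.measurable] at h2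
  rw [← Measure.map_congr (f := ρ ∘ fun ω : Om b => ((Yv ω : ℝ) : UnitAddCircle)) h1, h2]
  refine (Measure.map_congr (g := id) ?_).trans Measure.map_id
  filter_upwards [hsupp] with x hx
  exact hρ1 x hx

theorem conv_decay (ha : 2 ≤ a) (hb : 2 ≤ b) (hab : ∀ m n : ℕ, a ^ m = b ^ n → m = 0 ∧ n = 0)
    (μ ν : Measure ℝ) [IsProbabilityMeasure μ] [IsProbabilityMeasure ν]
    (hμ : Ergodic (fun x : ℝ => Int.fract ((a : ℝ) * x)) μ)
    (hν : Ergodic (fun x : ℝ => Int.fract ((b : ℝ) * x)) ν)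
    (hμ0 : ∃ c : ℝ, 0 < c ∧ ∀ n : ℕ, c * n ≤ ∑ k ∈ Finset.range (a ^ n),
      Real.negMulLog (μ.real (Set.Ico ((k : ℝ) / (a : ℝ) ^ n) ((k + 1 : ℝ) / (a : ℝ) ^ n))))
    (hν0 : ∃ c : ℝ, 0 < c ∧ ∀ n : ℕ, c * n ≤ ∑ k ∈ Finset.range (b ^ n),
      Real.negMulLog (ν.real (Set.Ico ((k : ℝ) / (b : ℝ) ^ n) ((k + 1 : ℝ) / (b : ℝ) ^ n))))
    (r : ℚ) (hr : r ≠ 0) :
    Tendsto (fun t : ℝ => ∫ z : ℝ × ℝ,
      Complex.exp (2 * Real.pi * Complex.I * t * (z.1 + r * z.2)) ∂(μ.prod ν))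
      (cocompact ℝ) (𝓝 0) := by
  obtain ⟨P, hP, a1, a2, rfl⟩ := exists_model_real ha μ hμ hμ0
  obtain ⟨Q, hQ, b1, b2, rfl⟩ := exists_model_real hb ν hν hν0
  have hd : (r.den : ℝ) ≠ 0 := by exact_mod_cast r.den_nz
  have h1 := om_decay ha hb hab a1 a2 b1 b2 (p := r.den) (q := r.num)
    (by exact_mod_cast r.den_nz) (Rat.num_ne_zero.2 hr)
  have h2 : Tendsto (fun t : ℝ => t * (r.den : ℝ)⁻¹) (cocompact ℝ) (cocompact ℝ) :=
    (Homeomorph.mulRight₀ _ (inv_ne_zero hd)).isClosedEmbedding.tendsto_cocompact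
  refine (h1.comp h2).congr fun t => ?_
  have hc : ∀ v : ℝ, Continuous fun x : ℝ => ee (v * x) := fun v => by
    unfold ee
    fun_prop
  simp only [Function.comp_apply]
  rw [← integral_map (measurable_Yv ha).aemeasurable (hc _).aestronglyMeasurable,
    ← integral_map (measurable_Yv hb).aemeasurable (hc _).aestronglyMeasurable,
    ← integral_prod_mul]
  refine integral_congr_ae (Eventually.of_forall fun z => ?_)
  simp only [ee]
  rw [← Complex.exp_add]
  congr 1
  have hd' : ((r.den : ℕ) : ℂ) ≠ 0 := by exact_mod_cast r.den_nz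
  rw [Rat.cast_def]
  push_cast
  field_simp

end Pool.Agent.Lib.MP_c9a594_an.FS
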